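import Mathlib

/-!
# Conjugate degree sequences: auxiliary results

Existence of regular graphs and of graphs with all degrees but one equal.
-/

open scoped Classical

namespace Pool.Agent.Q109.CD

/-- The degree of a vertex. -/
noncomputable def dg {V : Type} (G : SimpleGraph V) (v : V) : ℕ := (G.neighborSet v).ncard

theorem dg_lt {n : ℕ} (G : SimpleGraph (Fin n)) (v : Fin n) : dg G v < n := by
  have h1 : (G.neighborSet v) ⊆ {v}ᶜ := by
    intro w hw
    simp only [Set.mem_compl_iff, Set.mem_singleton_iff]
    rintro rfl
    exact G.loopless.irrefl _ hw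
  have h2 := Set.ncard_le_ncard h1 (Set.toFinite _)
  have h3 : ({v}ᶜ : Set (Fin n)).ncard = n - 1 := by
    rw [Set.ncard_compl, Set.ncard_singleton, Nat.card_eq_fintype_card, Fintype.card_fin]
  have h4 : 0 < n := lt_of_le_of_lt (Nat.zero_le _) v.2
  unfold dg
  omega

theorem even_sum_dg {V : Type} [Fintype V] (G : SimpleGraph V) : Even (∑ v, dg G v) := by
  have h := G.sum_degrees_eq_twice_card_edges
  have h2 : ∀ v, dg G v = G.degree v := by
    intro v
    unfold dg
    rw [← SimpleGraph.card_neighborSet_eq_degree, Set.ncard_eq_toFinset_card',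
      Set.toFinset_card]
  simp only [h2, h]
  exact even_two_mul _

/-! ### The round robin graphs -/

/-- Doubling is injective modulo an odd number. -/
theorem double_inj {q : ℕ} (hq : Odd q) : Function.Injective (fun x : ZMod q => x + x) := by
  have hu : IsUnit ((2 : ℕ) : ZMod q) := by
    rw [ZMod.isUnit_iff_coprime]
    exact (Nat.coprime_two_left).mpr hq
  intro x y h
  simp only at h
  have h1 : ((2 : ℕ) : ZMod q) * x = ((2 : ℕ) : ZMod q) * y := by
    push_cast
    rw [two_mul, two_mul, h]
  exact hu.mul_left_cancel h1

/-- The graph on `ZMod q ∪ {∞}` whose edges are the pairs `x ≠ y` with `x + y ∈ T` and the pairs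
`{∞, x}` with `x + x ∈ T`. -/
def RR (q : ℕ) (T : Set (ZMod q)) : SimpleGraph (Option (ZMod q)) where
  Adj a b := match a, b with
    | some x, some y => x ≠ y ∧ x + y ∈ T
    | some x, none => x + x ∈ T
    | none, some y => y + y ∈ T
    | none, none => False
  symm := by
    constructor
    rintro (_ | x) (_ | y) h
    · exact h
    · exact h
    · exact h
    · exact ⟨h.1.symm, by rw [add_comm]; exact h.2⟩
  loopless := by
    constructor
    rintro (_ | x) h
    · exact h
    · exact h.1 rfl

theorem dg_RR {q : ℕ} (hq : Odd q) (T : Set (ZMod q)) (v : Option (ZMod q)) :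
    dg (RR q T) v = T.ncard := by
  have : NeZero q := ⟨hq.pos.ne'⟩
  rcases v with _ | x
  · have hbij : Function.Bijective (fun x : ZMod q => x + x) :=
      Finite.injective_iff_bijective.mp (double_inj hq)
    have h1 : (RR q T).neighborSet none = some '' ((fun x : ZMod q => x + x) ⁻¹' T) := by
      ext b
      rcases b with _ | y
      · simp [RR, SimpleGraph.neighborSet]
      · simp [RR, SimpleGraph.neighborSet]
    unfold dg
    rw [h1, Set.ncard_image_of_injective _ (Option.some_injective _),
      Set.ncard_preimage_of_injective_subset_range hbij.1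
        (by rw [hbij.2.range_eq]; exact Set.subset_univ _)]
  · have h1 : (RR q T).neighborSet (some x) =
        (fun t => if t = x + x then none else some (t - x)) '' T := by
      ext b
      rcases b with _ | y
      · simp only [Set.mem_image]
        constructor
        · intro h
          exact ⟨x + x, h, by simp⟩
        · rintro ⟨t, ht, h⟩
          by_cases h2 : t = x + x
          · change x + x ∈ T
            rw [← h2]; exact ht
          · simp [h2] at h
      · simp only [Set.mem_image]
        constructor
        · intro h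
          have h' : x ≠ y ∧ x + y ∈ T := h
          refine ⟨x + y, h'.2, ?_⟩
          rw [if_neg (fun e => h'.1 (add_left_cancel e).symm)]
          congr 1
          ring
        · rintro ⟨t, ht, h⟩
          by_cases h2 : t = x + x
          · simp [h2] at h
          · rw [if_neg h2] at h
            have h3 : t - x = y := Option.some_injective _ h
            have h4 : t = x + y := by rw [← h3]; ring
            refine ⟨?_, ?_⟩
            · intro e
              exact h2 (by rw [h4, e])
            · rw [← h4]; exact ht
    unfold dg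
    rw [h1]
    refine Set.InjOn.ncard_image ?_
    intro t _ t' _ h
    simp only at h
    by_cases h1 : t = x + x <;> by_cases h2 : t' = x + x
    · rw [h1, h2]
    · rw [if_pos h1, if_neg h2] at h; exact absurd h (by simp)
    · rw [if_neg h1, if_pos h2] at h; exact absurd h (by simp)
    · rw [if_neg h1, if_neg h2] at h
      have h3 := Option.some_injective _ h
      exact sub_left_injective h3

/-- The perfect matching of colour `c` in the round robin graph. -/
theorem exists_matching {q : ℕ} (hq : Odd q) (T : Set (ZMod q)) (c : ZMod q) (hc : c ∈ T) :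
    ∃ σ : Option (ZMod q) → Option (ZMod q), (∀ a, σ (σ a) = a) ∧ ∀ a, (RR q T).Adj a (σ a) := by
  have : NeZero q := ⟨hq.pos.ne'⟩
  have hbij : Function.Bijective (fun x : ZMod q => x + x) :=
    Finite.injective_iff_bijective.mp (double_inj hq)
  obtain ⟨x₀, hx₀⟩ := hbij.2 c
  simp only at hx₀
  refine ⟨fun a => match a with
    | none => some x₀
    | some x => if x = x₀ then none else some (c - x), ?_, ?_⟩
  · rintro (_ | x)
    · simp
    · by_cases h : x = x₀
      · simp [h]
      · have h2 : c - x ≠ x₀ := by
          intro e
          apply h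
          have : c = x + x₀ := by rw [← e]; ring
          rw [← hx₀] at this
          exact (add_right_cancel this).symm
        simp [h, h2]
  · rintro (_ | x)
    · change x₀ + x₀ ∈ T
      rw [hx₀]; exact hc
    · by_cases h : x = x₀
      · simp only [h, if_true]
        change x₀ + x₀ ∈ T
        rw [hx₀]; exact hc
      · simp only [h, if_false]
        change x ≠ c - x ∧ x + (c - x) ∈ T
        refine ⟨?_, by rw [add_sub_cancel]; exact hc⟩
        intro e
        apply h
        apply double_inj hq
        simp only
        rw [hx₀]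
        nth_rewrite 2 [e]
        ring

/-! ### Adding a vertex -/

/-- Invariant sets of every even size of a fixed point free involution. -/
theorem exists_invariant {α : Type} [Fintype α] (σ : α → α) (h1 : ∀ a, σ (σ a) = a)
    (h2 : ∀ a, σ a ≠ a) (m : ℕ) (hm : 2 * m ≤ Fintype.card α) :
    ∃ J : Finset α, J.card = 2 * m ∧ ∀ a ∈ J, σ a ∈ J := by
  induction m with
  | zero => exact ⟨∅, by simp, by simp⟩
  | succ m ih =>
    obtain ⟨J, hJ, hJ'⟩ := ih (by omega)
    have hlt : J.card < Fintype.card α := by omega
    obtain ⟨x, hx⟩ : ∃ x, x ∉ J := by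
      by_contra hcon
      push Not at hcon
      have : J = Finset.univ := Finset.eq_univ_of_forall hcon
      rw [this, Finset.card_univ] at hlt
      exact lt_irrefl _ hlt
    have hx' : σ x ∉ J := fun h => hx (by rw [← h1 x]; exact hJ' _ h)
    refine ⟨insert x (insert (σ x) J), ?_, ?_⟩
    · rw [Finset.card_insert_of_notMem, Finset.card_insert_of_notMem hx', hJ]
      · ring
      · rw [Finset.mem_insert, not_or]
        exact ⟨(h2 x).symm, hx⟩
    · intro a ha
      rw [Finset.mem_insert, Finset.mem_insert] at ha
      rw [Finset.mem_insert, Finset.mem_insert]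
      rcases ha with rfl | rfl | ha
      · right; left; rfl
      · left; exact h1 x
      · right; right; exact hJ' a ha

/-- Add a vertex to `H`, joined to the members of `J`, and remove the edges `{a, σ a}`, `a ∈ J`. -/
def addV {α : Type} (H : SimpleGraph α) (σ : α → α) (h1 : ∀ a, σ (σ a) = a) (J : Finset α)
    (hJ : ∀ a ∈ J, σ a ∈ J) : SimpleGraph (Option α) where
  Adj a b := match a, b with
    | some x, some y => H.Adj x y ∧ ¬ (y = σ x ∧ x ∈ J)
    | some x, none => x ∈ J
    | none, some y => y ∈ J
    | none, none => False
  symm := by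
    constructor
    rintro (_ | x) (_ | y) h
    · exact h
    · exact h
    · exact h
    · refine ⟨h.1.symm, ?_⟩
      rintro ⟨e, hy⟩
      apply h.2
      refine ⟨by rw [e, h1], ?_⟩
      rw [e]; exact hJ _ hy
  loopless := by
    constructor
    rintro (_ | x) h
    · exact h
    · exact H.loopless.irrefl _ h.1

theorem dg_addV_none {α : Type} [Fintype α] (H : SimpleGraph α) (σ : α → α)
    (h1 : ∀ a, σ (σ a) = a) (J : Finset α) (hJ : ∀ a ∈ J, σ a ∈ J) :
    dg (addV H σ h1 J hJ) none = J.card := by
  have h : (addV H σ h1 J hJ).neighborSet none = some '' (J : Set α) := by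
    ext b
    rcases b with _ | y
    · simp [addV, SimpleGraph.neighborSet]
    · simp [addV, SimpleGraph.neighborSet]
  unfold dg
  rw [h, Set.ncard_image_of_injective _ (Option.some_injective _), Set.ncard_coe_finset]

theorem dg_addV_some {α : Type} [Fintype α] (H : SimpleGraph α) (σ : α → α)
    (h1 : ∀ a, σ (σ a) = a) (hσ : ∀ a, H.Adj a (σ a)) (J : Finset α) (hJ : ∀ a ∈ J, σ a ∈ J)
    (x : α) : dg (addV H σ h1 J hJ) (some x) = dg H x := by
  by_cases hx : x ∈ J
  · have h : (addV H σ h1 J hJ).neighborSet (some x) =
        (fun y => if y = σ x then none else some y) '' (H.neighborSet x) := by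
      ext b
      rcases b with _ | y
      · simp only [Set.mem_image]
        constructor
        · intro _
          exact ⟨σ x, hσ x, by simp⟩
        · intro _
          exact hx
      · simp only [Set.mem_image]
        constructor
        · intro h
          have h' : H.Adj x y ∧ ¬ (y = σ x ∧ x ∈ J) := h
          refine ⟨y, h'.1, ?_⟩
          rw [if_neg (fun e => h'.2 ⟨e, hx⟩)]
        · rintro ⟨z, hz, h⟩
          by_cases e : z = σ x
          · simp [e] at h
          · rw [if_neg e] at h
            have h3 : z = y := Option.some_injective _ h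
            subst h3
            exact ⟨hz, fun h4 => e h4.1⟩
    unfold dg
    rw [h]
    refine Set.InjOn.ncard_image ?_
    intro t _ t' _ h
    simp only at h
    by_cases h1 : t = σ x <;> by_cases h2 : t' = σ x
    · rw [h1, h2]
    · rw [if_pos h1, if_neg h2] at h; exact absurd h (by simp)
    · rw [if_neg h1, if_pos h2] at h; exact absurd h (by simp)
    · rw [if_neg h1, if_neg h2] at h
      exact Option.some_injective _ h
  · have h : (addV H σ h1 J hJ).neighborSet (some x) = some '' (H.neighborSet x) := by
      ext b
      rcases b with _ | y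
      · simp [addV, SimpleGraph.neighborSet, hx]
      · simp [addV, SimpleGraph.neighborSet, hx]
    unfold dg
    rw [h, Set.ncard_image_of_injective _ (Option.some_injective _)]

/-- Transport to `Fin n`. -/
theorem transport {V : Type} {n : ℕ} (e : Fin n ≃ V) (G : SimpleGraph V) (v : Fin n) :
    dg (G.comap e) v = dg G (e v) := by
  unfold dg
  have h : (G.comap e).neighborSet v = e ⁻¹' (G.neighborSet (e v)) := rfl
  rw [h, Set.ncard_preimage_of_injective_subset_range e.injective
    (by rw [e.surjective.range_eq]; exact Set.subset_univ _)]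

theorem exists_regular_even {n k : ℕ} (hn : Even n) (hk : k < n) :
    ∃ G : SimpleGraph (Fin n), ∀ v, dg G v = k := by
  obtain ⟨q, rfl⟩ : ∃ q, n = q + 1 := ⟨n - 1, by omega⟩
  have hq : Odd q := by
    rcases Nat.even_or_odd q with h | h
    · exact absurd hn (by simpa using h.add_one)
    · exact h
  have : NeZero q := ⟨hq.pos.ne'⟩
  have hcard : Fintype.card (ZMod q) = q := ZMod.card q
  obtain ⟨T, hT⟩ := Finset.exists_subset_card_eq (s := (Finset.univ : Finset (ZMod q))) (n := k)
    (by rw [Finset.card_univ, hcard]; omega)
  have e : Fin (q + 1) ≃ Option (ZMod q) :=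
    Fintype.equivOfCardEq (by rw [Fintype.card_fin, Fintype.card_option, hcard])
  refine ⟨(RR q (T : Set (ZMod q))).comap e, fun v => ?_⟩
  rw [transport, dg_RR hq, Set.ncard_coe_finset, hT.2]

theorem exists_near {n k j : ℕ} (hn : Odd n) (hk : 0 < k) (hk' : k + 1 < n) (hj : Even j)
    (hj' : j < n) :
    ∃ (G : SimpleGraph (Fin n)) (v₀ : Fin n), dg G v₀ = j ∧ ∀ v, v ≠ v₀ → dg G v = k := by
  obtain ⟨q, rfl⟩ : ∃ q, n = q + 1 + 1 := ⟨n - 2, by omega⟩
  have hq : Odd q := by
    rcases Nat.even_or_odd q with h | h
    · exfalso
      have : Even (q + 1 + 1) := by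
        rw [add_assoc]; exact h.add (by norm_num)
      exact (Nat.not_even_iff_odd.mpr hn) this
    · exact h
  have : NeZero q := ⟨hq.pos.ne'⟩
  have hcard : Fintype.card (ZMod q) = q := ZMod.card q
  obtain ⟨T, hT⟩ := Finset.exists_subset_card_eq (s := (Finset.univ : Finset (ZMod q))) (n := k)
    (by rw [Finset.card_univ, hcard]; omega)
  obtain ⟨c, hc⟩ : T.Nonempty := Finset.card_pos.mp (by rw [hT.2]; exact hk)
  obtain ⟨σ, hσ1, hσ2⟩ := exists_matching hq (T : Set (ZMod q)) c hc
  obtain ⟨m, rfl⟩ := hj
  have hcard' : Fintype.card (Option (ZMod q)) = q + 1 := by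
    rw [Fintype.card_option, hcard]
  obtain ⟨J, hJ1, hJ2⟩ := exists_invariant σ hσ1 (fun a h => (RR q (T : Set (ZMod q))).loopless.irrefl a
    (by have := hσ2 a; rw [h] at this; exact this)) m (by rw [hcard']; omega)
  have e : Fin (q + 1 + 1) ≃ Option (Option (ZMod q)) :=
    Fintype.equivOfCardEq (by rw [Fintype.card_fin, Fintype.card_option, hcard'])
  refine ⟨(addV (RR q (T : Set (ZMod q))) σ hσ1 J hJ2).comap e, e.symm none, ?_, ?_⟩
  · rw [transport, e.apply_symm_apply, dg_addV_none, hJ1]
    ring
  · intro v hv
    rw [transport]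
    rcases h : e v with _ | x
    · exact absurd (by rw [← h, e.symm_apply_apply]) hv
    · rw [dg_addV_some _ _ _ hσ2, dg_RR hq, Set.ncard_coe_finset, hT.2]

theorem exists_regular {n k : ℕ} (hk : k < n) (h : Even (n * k)) :
    ∃ G : SimpleGraph (Fin n), ∀ v, dg G v = k := by
  rcases Nat.even_or_odd n with hn | hn
  · exact exists_regular_even hn hk
  · have hke : Even k := by
      rcases Nat.even_mul.mp h with h' | h'
      · exact absurd h' (Nat.not_even_iff_odd.mpr hn)
      · exact h'
    rcases Nat.eq_zero_or_pos k with rfl | hk0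
    · refine ⟨⊥, fun v => ?_⟩
      unfold dg
      have : (⊥ : SimpleGraph (Fin n)).neighborSet v = ∅ := by
        ext w; simp [SimpleGraph.neighborSet]
      rw [this, Set.ncard_empty]
    · by_cases hk1 : k + 1 = n
      · refine ⟨⊤, fun v => ?_⟩
        unfold dg
        have : (⊤ : SimpleGraph (Fin n)).neighborSet v = {v}ᶜ := by
          ext w; simp [SimpleGraph.neighborSet, eq_comm]
        rw [this, Set.ncard_compl, Set.ncard_singleton, Nat.card_eq_fintype_card,
          Fintype.card_fin]
        omega
      · obtain ⟨G, v₀, h1, h2⟩ := exists_near hn hk0 (by omega) hke hk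
        refine ⟨G, fun v => ?_⟩
        by_cases hv : v = v₀
        · rw [hv, h1]
        · exact h2 v hv

end Pool.Agent.Q109.CD
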