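import Pool.Agent.Q109.CD

/-!
# The convex hull of the conjugate degree sequences
-/

open scoped Classical

namespace Pool.Agent.Q109.CD

/-- Conjugate of a degree function, as a sum. -/
noncomputable def cj {n : ℕ} (d : Fin n → ℕ) : Fin n → ℝ := fun i => ∑ v, if i.val < d v then 1 else 0

/-- The vector with `i`-th entry `(n-1) [i < k] + [i < j]`. -/
noncomputable def Q (n k j : ℕ) : Fin n → ℝ := fun i =>
  ((n : ℝ) - 1) * (if i.val < k then 1 else 0) + (if i.val < j then 1 else 0)

/-- The linear functional attached to a function of the degree. -/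
noncomputable def L {n : ℕ} (g : ℕ → ℝ) : (Fin n → ℝ) →ₗ[ℝ] ℝ where
  toFun x := ∑ i : Fin n, (g (i.val + 1) - g i.val) * x i
  map_add' x y := by
    rw [← Finset.sum_add_distrib]
    exact Finset.sum_congr rfl fun i _ => by simp only [Pi.add_apply]; ring
  map_smul' c x := by
    rw [RingHom.id_apply, smul_eq_mul, Finset.mul_sum]
    exact Finset.sum_congr rfl fun i _ => by simp only [Pi.smul_apply, smul_eq_mul]; ring

theorem L_cj {n : ℕ} (g : ℕ → ℝ) (d : Fin n → ℕ) (hd : ∀ v, d v ≤ n) :
    L g (cj d) = ∑ v, (g (d v) - g 0) := by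
  change ∑ i : Fin n, (g (i.val + 1) - g i.val) * (∑ v, if i.val < d v then (1 : ℝ) else 0) = _
  simp only [Finset.mul_sum]
  rw [Finset.sum_comm]
  refine Finset.sum_congr rfl fun v _ => ?_
  have h1 : ∑ i : Fin n, (g (i.val + 1) - g i.val) * (if i.val < d v then (1 : ℝ) else 0) =
      ∑ i ∈ Finset.range n, (g (i + 1) - g i) * (if i < d v then (1 : ℝ) else 0) :=
    Fin.sum_univ_eq_sum_range (fun i => (g (i + 1) - g i) * (if i < d v then (1 : ℝ) else 0)) n
  rw [h1]
  have h2 : ∑ i ∈ Finset.range n, (g (i + 1) - g i) * (if i < d v then (1 : ℝ) else 0) =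
      ∑ i ∈ Finset.range (d v), (g (i + 1) - g i) := by
    simp only [mul_ite, mul_one, mul_zero]
    rw [← Finset.sum_filter]
    congr 1
    ext i
    simp only [Finset.mem_filter, Finset.mem_range]
    have := hd v
    constructor
    · exact fun h => h.2
    · exact fun h => ⟨by omega, h⟩
  rw [h2, Finset.sum_range_sub]

theorem cj_const {n : ℕ} (d : Fin n → ℕ) (k : ℕ) (h : ∀ v, d v = k) : cj d = Q n k k := by
  funext i
  unfold cj Q
  simp only [h, Finset.sum_const, Finset.card_univ, Fintype.card_fin, nsmul_eq_mul]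
  ring

theorem cj_near {n : ℕ} (d : Fin n → ℕ) (v₀ : Fin n) (k : ℕ) (h : ∀ v, v ≠ v₀ → d v = k) :
    cj d = Q n k (d v₀) := by
  funext i
  unfold cj Q
  rw [← Finset.add_sum_erase _ _ (Finset.mem_univ v₀)]
  have h1 : ∑ v ∈ Finset.univ.erase v₀, (if i.val < d v then (1 : ℝ) else 0) =
      ∑ v ∈ Finset.univ.erase v₀, (if i.val < k then (1 : ℝ) else 0) :=
    Finset.sum_congr rfl fun v hv => by rw [h v (Finset.ne_of_mem_erase hv)]
  rw [h1, Finset.sum_const, Finset.card_erase_of_mem (Finset.mem_univ _), Finset.card_univ,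
    Fintype.card_fin, nsmul_eq_mul]
  have hn : 1 ≤ n := lt_of_le_of_lt (Nat.zero_le _) v₀.2
  push_cast [Nat.cast_sub hn]
  ring

/-- A point at which a linear functional is strictly larger than at all other points of `S` is
extreme in the convex hull. -/
theorem extreme_of_max {E : Type} [AddCommGroup E] [Module ℝ E] (S : Set E) (e : E) (he : e ∈ S)
    (f : E →ₗ[ℝ] ℝ) (h : ∀ s ∈ S, s ≠ e → f s < f e) :
    e ∈ (convexHull ℝ S).extremePoints ℝ := by
  have hsub : convexHull ℝ S ⊆ {x | x = e ∨ f x < f e} := by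
    refine convexHull_min ?_ ?_
    · intro s hs
      by_cases hse : s = e
      · exact Or.inl hse
      · exact Or.inr (h s hs hse)
    · intro x hx y hy a b ha hb hab
      by_cases h1 : x = e ∧ y = e
      · left
        rw [h1.1, h1.2, ← add_smul, hab, one_smul]
      · by_cases ha0 : a = 0
        · have hb1 : b = 1 := by linarith
          rw [ha0, hb1, zero_smul, zero_add, one_smul]
          exact hy
        · by_cases hb0 : b = 0
          · have ha1 : a = 1 := by linarith
            rw [hb0, ha1, zero_smul, add_zero, one_smul]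
            exact hx
          · right
            have ha' : 0 < a := lt_of_le_of_ne ha (Ne.symm ha0)
            have hb' : 0 < b := lt_of_le_of_ne hb (Ne.symm hb0)
            change f (a • x + b • y) < f e
            rw [map_add, map_smul, map_smul, smul_eq_mul, smul_eq_mul]
            have h2 : f x ≤ f e := by
              rcases hx with rfl | hx
              · exact le_refl _
              · exact hx.le
            have h3 : f y ≤ f e := by
              rcases hy with rfl | hy
              · exact le_refl _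
              · exact hy.le
            have h4 : f x < f e ∨ f y < f e := by
              rcases hx with hx' | hx'
              · rcases hy with hy' | hy'
                · exact absurd ⟨hx', hy'⟩ h1
                · exact Or.inr hy'
              · exact Or.inl hx'
            have e0 : f e = a * f e + b * f e := by rw [← add_mul, hab, one_mul]
            rcases h4 with h4 | h4
            · linarith [mul_lt_mul_of_pos_left h4 ha', mul_le_mul_of_nonneg_left h3 hb]
            · linarith [mul_lt_mul_of_pos_left h4 hb', mul_le_mul_of_nonneg_left h2 ha]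
  rw [mem_extremePoints]
  refine ⟨subset_convexHull ℝ S he, ?_⟩
  intro x hx y hy hxy
  obtain ⟨a, b, ha, hb, hab, hexy⟩ := hxy
  have hx' := hsub hx
  have hy' := hsub hy
  have h2 : f x ≤ f e := by
    rcases hx' with rfl | hx'
    · exact le_refl _
    · exact hx'.le
  have h3 : f y ≤ f e := by
    rcases hy' with rfl | hy'
    · exact le_refl _
    · exact hy'.le
  have h5 : a * f x + b * f y = f e := by
    rw [← smul_eq_mul, ← smul_eq_mul, ← map_smul, ← map_smul, ← map_add, hexy]
  have e0 : f e = a * f e + b * f e := by rw [← add_mul, hab, one_mul]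
  constructor
  · rcases hx' with hx' | hx'
    · exact hx'
    · exfalso
      have hx2 : f x < f e := hx'
      linarith [mul_lt_mul_of_pos_left hx2 ha, mul_le_mul_of_nonneg_left h3 hb.le]
  · rcases hy' with hy' | hy'
    · exact hy'
    · exfalso
      have hy2 : f y < f e := hy'
      linarith [mul_lt_mul_of_pos_left hy2 hb, mul_le_mul_of_nonneg_left h2 ha.le]

/-- All degrees are `k` if the conjugate is the one of a regular graph. -/
theorem eq_const {n : ℕ} (d : Fin n → ℕ) (k : ℕ)
    (h : (n : ℝ) ≤ ∑ v, (if d v = k then (1 : ℝ) else 0)) : ∀ v, d v = k := by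
  intro v
  by_contra hv
  have h1 : ∑ v, (if d v = k then (1 : ℝ) else 0) < ∑ _v : Fin n, (1 : ℝ) := by
    refine Finset.sum_lt_sum (fun w _ => ?_) ⟨v, Finset.mem_univ _, ?_⟩
    · split_ifs <;> norm_num
    · rw [if_neg hv]; norm_num
  rw [Finset.sum_const, Finset.card_univ, Fintype.card_fin, nsmul_eq_mul, mul_one] at h1
  linarith

/-- The nearly regular case. -/
theorem near_of_sum {n : ℕ} (d : Fin n → ℕ) (k j : ℕ) (hkj : k ≠ j)
    (v₀ : Fin n) (hv₀ : d v₀ ≠ k) :
    (∑ v, ((if d v = k then (2 : ℝ) else 0) + (if d v = j then (1 : ℝ) else 0)) ≤ 2 * n - 1) ∧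
    ((2 * n - 1 : ℝ) ≤ ∑ v, ((if d v = k then (2 : ℝ) else 0) + (if d v = j then (1 : ℝ) else 0)) →
      d v₀ = j ∧ ∀ v, v ≠ v₀ → d v = k) := by
  have hn : 1 ≤ n := lt_of_le_of_lt (Nat.zero_le _) v₀.2
  have hsplit := Finset.add_sum_erase (Finset.univ : Finset (Fin n))
    (fun v => (if d v = k then (2 : ℝ) else 0) + (if d v = j then (1 : ℝ) else 0))
    (Finset.mem_univ v₀)
  have hle : ∀ v, (if d v = k then (2 : ℝ) else 0) + (if d v = j then (1 : ℝ) else 0) ≤ 2 := by
    intro v
    by_cases h1 : d v = k
    · have h2 : d v ≠ j := fun h => hkj (h1.symm.trans h)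
      rw [if_pos h1, if_neg h2]; norm_num
    · rw [if_neg h1]
      split_ifs <;> norm_num
  have h0 : (if d v₀ = k then (2 : ℝ) else 0) + (if d v₀ = j then (1 : ℝ) else 0) ≤ 1 := by
    rw [if_neg hv₀]
    split_ifs <;> norm_num
  have hcard : ((Finset.univ.erase v₀).card : ℝ) = n - 1 := by
    rw [Finset.card_erase_of_mem (Finset.mem_univ _), Finset.card_univ, Fintype.card_fin]
    push_cast [Nat.cast_sub hn]
    ring
  have hrest : ∑ v ∈ Finset.univ.erase v₀,
      ((if d v = k then (2 : ℝ) else 0) + (if d v = j then (1 : ℝ) else 0)) ≤ 2 * (n - 1) := by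
    calc _ ≤ ∑ v ∈ Finset.univ.erase v₀, (2 : ℝ) := Finset.sum_le_sum fun v _ => hle v
      _ = _ := by rw [Finset.sum_const, nsmul_eq_mul, hcard]; ring
  refine ⟨by rw [← hsplit]; linarith, ?_⟩
  intro hge
  rw [← hsplit] at hge
  constructor
  · by_contra hj
    rw [if_neg hv₀, if_neg hj] at hge
    linarith
  · intro v hv
    by_contra hvk
    have hlt : ∑ v ∈ Finset.univ.erase v₀,
        ((if d v = k then (2 : ℝ) else 0) + (if d v = j then (1 : ℝ) else 0)) <
        ∑ v ∈ Finset.univ.erase v₀, (2 : ℝ) := by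
      refine Finset.sum_lt_sum (fun v _ => hle v) ⟨v, Finset.mem_erase.mpr ⟨hv, Finset.mem_univ _⟩, ?_⟩
      rw [if_neg hvk]
      split_ifs <;> norm_num
    rw [Finset.sum_const, nsmul_eq_mul, hcard] at hlt
    linarith

/-- The extreme points. -/
def Ext (n : ℕ) : Set (Fin n → ℝ) :=
  {x | ∃ k, k < n ∧ Even (n * k) ∧ x = Q n k k} ∪
  {x | ∃ k j, k < n ∧ j < n ∧ Odd n ∧ Odd k ∧ Even j ∧ x = Q n k j}

theorem mem_hull {n : ℕ} (hn : 0 < n) (d : Fin n → ℕ) (hd : ∀ v, d v < n)
    (hpar : Odd n → ∃ v, Even (d v)) : cj d ∈ convexHull ℝ (Ext n) := by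
  have hconv := convex_convexHull ℝ (Ext n)
  have hn' : (0 : ℝ) < n := by exact_mod_cast hn
  -- averages of regular points
  have key : ∀ W : Finset (Fin n), W.Nonempty → (∀ w ∈ W, Even (n * d w)) →
      (∑ w ∈ W, ((W.card : ℝ)⁻¹) • Q n (d w) (d w)) ∈ convexHull ℝ (Ext n) := by
    intro W hW hWe
    have hc : (0 : ℝ) < W.card := by exact_mod_cast Finset.card_pos.mpr hW
    refine hconv.sum_mem (fun w _ => (inv_pos.mpr hc).le) ?_ ?_
    · rw [Finset.sum_const, nsmul_eq_mul, mul_inv_cancel₀ hc.ne']
    · intro w hw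
      exact subset_convexHull ℝ _ (Or.inl ⟨d w, hd w, hWe w hw, rfl⟩)
  rcases Nat.even_or_odd n with he | ho
  · have h := key Finset.univ ⟨⟨0, hn⟩, Finset.mem_univ _⟩ (fun w _ => he.mul_right _)
    have h2 : cj d = ∑ w ∈ Finset.univ, (((Finset.univ : Finset (Fin n)).card : ℝ)⁻¹) •
        Q n (d w) (d w) := by
      funext i
      rw [Finset.sum_apply]
      unfold cj
      refine Finset.sum_congr rfl fun v _ => ?_
      rw [Pi.smul_apply, Finset.card_univ, Fintype.card_fin, smul_eq_mul]
      unfold Q
      split_ifs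
      · field_simp
        ring
      · ring
    rw [h2]
    exact h
  · set W : Finset (Fin n) := Finset.univ.filter (fun v => Even (d v)) with hWdef
    set O : Finset (Fin n) := Finset.univ.filter (fun v => ¬ Even (d v)) with hOdef
    have hW : W.Nonempty := by
      obtain ⟨v, hv⟩ := hpar ho
      exact ⟨v, Finset.mem_filter.mpr ⟨Finset.mem_univ _, hv⟩⟩
    have hWe : ∀ w ∈ W, Even (n * d w) := fun w hw => ((Finset.mem_filter.mp hw).2).mul_left _
    have hcardsum : O.card + W.card = n := by
      have := Finset.card_filter_add_card_filter_not (s := (Finset.univ : Finset (Fin n)))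
        (fun v => Even (d v))
      rw [Finset.card_univ, Fintype.card_fin] at this
      rw [hWdef, hOdef]
      omega
    have hsplit : ∀ i : Fin n, cj d i = (∑ v ∈ O, if i.val < d v then (1 : ℝ) else 0) +
        ∑ w ∈ W, if i.val < d w then (1 : ℝ) else 0 := by
      intro i
      unfold cj
      rw [add_comm, hWdef, hOdef, Finset.sum_filter_add_sum_filter_not]
    have hWc : (0 : ℝ) < W.card := by exact_mod_cast Finset.card_pos.mpr hW
    by_cases hO : O.Nonempty
    · have hOc : (0 : ℝ) < O.card := by exact_mod_cast Finset.card_pos.mpr hO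
      have hsumR : (O.card : ℝ) + W.card = n := by exact_mod_cast hcardsum
      have hn1 : (0 : ℝ) < (n : ℝ) - 1 := by
        have : (1 : ℝ) ≤ O.card := by exact_mod_cast Finset.card_pos.mpr hO
        linarith
      -- average over pairs
      have hA : (∑ p ∈ O ×ˢ W, (((O.card : ℝ) * W.card)⁻¹) • Q n (d p.1) (d p.2)) ∈
          convexHull ℝ (Ext n) := by
        refine hconv.sum_mem (fun w _ => (inv_pos.mpr (mul_pos hOc hWc)).le) ?_ ?_
        · rw [Finset.sum_const, nsmul_eq_mul, Finset.card_product]
          push_cast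
          rw [mul_inv_cancel₀ (mul_pos hOc hWc).ne']
        · rintro ⟨v, w⟩ hp
          rw [Finset.mem_product] at hp
          refine subset_convexHull ℝ _ (Or.inr ⟨d v, d w, hd v, hd w, ho,
            Nat.not_even_iff_odd.mp (Finset.mem_filter.mp hp.1).2,
            (Finset.mem_filter.mp hp.2).2, rfl⟩)
      have hB := key W hW hWe
      set s : ℝ := (O.card : ℝ) / ((n : ℝ) - 1) with hs
      have hs0 : 0 ≤ s := div_nonneg hOc.le hn1.le
      have hs1 : 0 ≤ 1 - s := by
        rw [hs, sub_nonneg, div_le_one hn1]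
        have : (1 : ℝ) ≤ W.card := by exact_mod_cast Finset.card_pos.mpr hW
        linarith
      have hcomb := hconv hA hB hs0 hs1 (by ring)
      have heq : cj d = s • (∑ p ∈ O ×ˢ W, (((O.card : ℝ) * W.card)⁻¹) • Q n (d p.1) (d p.2)) +
          (1 - s) • ∑ w ∈ W, ((W.card : ℝ)⁻¹) • Q n (d w) (d w) := by
        funext i
        rw [hsplit i, Pi.add_apply, Pi.smul_apply, Pi.smul_apply, Finset.sum_apply,
          Finset.sum_apply, Finset.sum_product]
        set a : ℝ := ∑ v ∈ O, if i.val < d v then (1 : ℝ) else 0 with ha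
        set b : ℝ := ∑ w ∈ W, if i.val < d w then (1 : ℝ) else 0 with hb
        have e1 : ∑ v ∈ O, ∑ w ∈ W, ((((O.card : ℝ) * W.card)⁻¹) • Q n (d v) (d w)) i =
            ((O.card : ℝ) * W.card)⁻¹ * (((n : ℝ) - 1) * (W.card * a) + O.card * b) := by
          have : ∀ v ∈ O, ∑ w ∈ W, ((((O.card : ℝ) * W.card)⁻¹) • Q n (d v) (d w)) i =
              ((O.card : ℝ) * W.card)⁻¹ * (((n : ℝ) - 1) * (W.card *
                (if i.val < d v then (1 : ℝ) else 0)) + b) := by
            intro v _
            simp only [Pi.smul_apply, smul_eq_mul, Q]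
            rw [← Finset.mul_sum, Finset.sum_add_distrib, Finset.sum_const, nsmul_eq_mul, ← hb]
            ring
          rw [Finset.sum_congr rfl this, ← Finset.mul_sum, Finset.sum_add_distrib,
            Finset.sum_const, nsmul_eq_mul, ← Finset.mul_sum, ← Finset.mul_sum, ← ha]
        have e2 : ∑ w ∈ W, (((W.card : ℝ)⁻¹) • Q n (d w) (d w)) i = (W.card : ℝ)⁻¹ * (n * b) := by
          simp only [Pi.smul_apply, smul_eq_mul, Q]
          rw [← Finset.mul_sum]
          congr 1
          rw [hb, Finset.mul_sum]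
          refine Finset.sum_congr rfl fun w _ => ?_
          ring
        rw [e1, e2, smul_eq_mul, smul_eq_mul, hs]
        have hWn : (W.card : ℝ) = n - O.card := by linarith
        field_simp
        rw [hWn]
        ring
      rw [heq]
      exact hcomb
    · have hO0 : O = ∅ := Finset.not_nonempty_iff_eq_empty.mp hO
      have hWn : W.card = n := by rw [hO0, Finset.card_empty, zero_add] at hcardsum; exact hcardsum
      have heq : cj d = ∑ w ∈ W, ((W.card : ℝ)⁻¹) • Q n (d w) (d w) := by
        funext i
        rw [hsplit i, hO0, Finset.sum_empty, zero_add, Finset.sum_apply]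
        refine Finset.sum_congr rfl fun w _ => ?_
        rw [Pi.smul_apply, smul_eq_mul, hWn]
        unfold Q
        split_ifs
        · field_simp
          ring
        · ring
      rw [heq]
      exact key W hW hWe

end Pool.Agent.Q109.CD
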